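import Pool.Agent.MP_66cee2_co.D.Fam
import Pool.Agent.MP_66cee2_co.XJ.U

/-
Finitely many flat fields whose span contains a lift give a family whose labels are lifts.
-/

namespace Pool.Agent.MP_66cee2_co.G

open MeasureTheory Set Filter Metric Topology Matrix Pool.Agent.MP_66cee2_co.X
  Pool.Agent.MP_66cee2_co.D Pool.Agent.MP_66cee2_co.D.C Pool.Agent.MP_66cee2_co.D.C.CFam
open scoped ENNReal RealInnerProductSpace

/-- a family all of whose labels are lifts of points. -/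
structure FamL {d n : ℕ} (O : (Ix n → ℝ) → Set (E d)) : Prop extends Fam O where
  lab : ∀ v, (O v).Nonempty → ∃ p : E n, v = lift p

variable {d n : ℕ}

/-- the family from countably many pieces. -/
theorem famL_of (hK : SKit d) (h2 : SOpen d) {I : Type} [Countable I]
    (Z : I → Set (E d)) (W : I → Submodule ℝ (Ix n → ℝ)) (hZ : ∀ i, MeasurableSet (Z i))
    (ha : ∀ᵐ y, ∃ p : E n, Sg Z W y ≤ perp (lift p))
    (hb : ∀ᵐ z, ∃ i, z ∈ Z i ∧ ∀ u, Sg Z W z ≤ perp u → u ∈ W i) :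
    ∃ O : (Ix n → ℝ) → Set (E d), FamL O := by
  refine ⟨fun v => {y | (∃ p : E n, v = lift p) ∧
      ∃ r, 0 < r ∧ ∀ᵐ y', y' ∈ ball y r → Sg Z W y' ≤ perp v},
    ⟨fun v => ?_, fun v hv => ?_, ?_, ?_⟩, fun v hv => ?_⟩
  · rw [Metric.isOpen_iff]
    rintro y ⟨hv, r, hr, h⟩
    refine ⟨r / 2, half_pos hr, fun y₁ hy₁ =>
      ⟨hv, r / 2, half_pos hr, h.mono fun y' hy' hb => hy' ?_⟩⟩
    rw [mem_ball] at hy₁ hb ⊢
    linarith [dist_triangle y' y₁ y]
  · obtain ⟨y, ⟨p, rfl⟩, -⟩ := hv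
    rw [lz_lift, sub_self, norm_zero]
    norm_num
  · rw [Metric.dense_iff]
    intro x ρ hρ
    obtain ⟨y, hy, ⟨p, hG⟩, r, hr, h⟩ := h2 I (Ix n) Z W _ x ρ hZ ha hρ
    exact ⟨y, hy, mem_iUnion.2 ⟨lift p, ⟨p, rfl⟩, r, hr,
      h.mono fun y' h1 h3 => (h1 h3).trans hG⟩⟩
  · rintro v v' y z ⟨-, r, hr, h⟩ ⟨-, r', hr', h'⟩ hyz
    have hε : 0 < min (r / 2) r' := lt_min (half_pos hr) hr'
    obtain ⟨i, hi, hpos⟩ : ∃ i, v' ∈ W i ∧ volume (Z i ∩ ball z (min (r / 2) r')) ≠ 0 := by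
      by_contra hn
      push Not at hn
      have h3 : ∀ᵐ z', ∀ i, v' ∈ W i → z' ∉ Z i ∩ ball z (min (r / 2) r') := by
        refine ae_all_iff.2 fun i => ?_
        by_cases hi : v' ∈ W i
        · exact (measure_eq_zero_iff_ae_notMem.1 (hn i hi)).mono fun z' h _ => h
        · exact Eventually.of_forall fun z' h => absurd h hi
      refine (measure_ball_pos volume z hε).ne' (measure_eq_zero_iff_ae_notMem.2 ?_)
      filter_upwards [h3, hb, h'] with z' h4 ⟨i, h5, h6⟩ h7 h8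
      exact h4 i (h6 _ (h7 (ball_subset_ball (min_le_right _ _) h8))) ⟨h5, h8⟩
    have h3 : volume (ball y r ∩ Nb (Z i)) ≠ 0 := fun h0 => hpos (measure_mono_null
      (inter_subset_inter_right _ ((ball_subset_ball (min_le_left _ _)).trans (ball_nb hr hyz)))
      (hK.nb_swap _ _ measurableSet_ball (hZ i) h0))
    obtain ⟨y', hy', h4⟩ := Measure.exists_mem_of_measure_ne_zero_of_ae h3 (ae_restrict_of_ae h)
    have h5 := mem_perp.1 (h4 hy'.1 (le_Sg hy'.2 hi))
    rwa [lz_comm] at h5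
  · obtain ⟨y, hy, -⟩ := hv
    exact hy

theorem span_left {β : Type} {A : β → Ix n → ℝ} {v w : Ix n → ℝ} (h : ∀ j, lz (A j) w = 0)
    (hv : v ∈ Submodule.span ℝ (range A)) : lz v w = 0 :=
  mem_perp.1 ((Submodule.span_le (p := perp w)).2 (by rintro _ ⟨j, rfl⟩; exact h j) hv)

theorem famL_gen (hK : SKit d) (h1 : SCnt d) (h2 : SOpen d) {β : Type} [Fintype β]
    (V : β → E d → Ix n → ℝ) (hm : ∀ k, Measurable (V k))
    (hf : ∀ k, ∀ᵐ x : E d, ∀ K : ℕ, ∃ C : ℝ,
      Small fun τ => {η | C * τ ^ K < ‖V k (x + η) - V k x‖})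
    (ho : AePair fun x y => ∀ j k, lz (V j x) (V k y) = 0)
    (hl : ∀ᵐ y, ∃ p : E n, lift p ∈ Submodule.span ℝ (range fun j => V j y)) :
    ∃ O : (Ix n → ℝ) → Set (E d), FamL O := by
  classical
  have mc := fun k => meas_c (hm k)
  choose J ξ mJ mξ nrm orth uniq using fun k =>
    sRows d (Ix n) Unit (fun x _ => Jv (V k x)) fun _ a => mc k a
  have hD : ∀ k j, Dual (fun x (_ : Unit) => Jv (V k x)) (J k) fun y => ξ k y j := fun k j =>
    ⟨fun _ a => mc k a, mJ k, mξ k j,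
      fun y y' h a ha => by rw [nrm k y j a ha, nrm k y' j a (h ▸ ha)],
      fun t => sUp sSig d _ _ _ (mξ k j) (mc k)
        (ae_of_all _ fun y => (orth k y j).mono fun ω h => h t), ae_of_all _ (uniq k)⟩
  obtain ⟨Ξ, hΞ⟩ : ∃ Ξ : E d → β → Ix n → Ix n → ℝ, Ξ = fun x k => ξ k x := ⟨_, rfl⟩
  have eΞ : ∀ x k, Ξ x k = ξ k x := fun x k => by rw [hΞ]
  have mξ' : Measurable Ξ := by
    rw [hΞ]
    exact measurable_pi_iff.2 fun k => measurable_pi_iff.2 fun j => measurable_pi_iff.2 (mξ k j)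
  have hlev : ∀ᵐ x : E d, 0 < volume {y | Ξ y = Ξ x} := by
    filter_upwards [ae_all_iff.2 fun z : β × Ix n => h1 (Ix n) _ (J z.1) _ (hD z.1 z.2)
      ((hf z.1).mono fun y hy => flat_c hy)] with x hx
    refine pos_of_small (x := x) (small_iff.2
      ((smR_exists fun z => small_iff.1 (hx z)).mono' fun τ η hη => ?_))
    by_contra hn
    simp only [mem_ofPred_eq, not_exists, Far, not_or, not_lt] at hn hη
    refine hη (funext fun k => funext fun j => ?_)
    rw [eΞ, eΞ]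
    exact sub_eq_zero.1 (norm_le_zero_iff.1 (hn (k, j)).2)
  have hspan : ∀ (x : E d) (u : Ix n → ℝ), (∀ k, ∀ᵐ ω ∂sig d, lz u (V k (x + ω)) = 0) →
      u ∈ ⨅ k, Submodule.span ℝ (range (Ξ x k)) := fun x u hu => by
    refine (Submodule.mem_iInf _).2 fun k => ?_
    rw [eΞ, gal_span (nrm k x) (orth k x) (uniq k x) u ((hu k).mono fun ω h _ => h)]
    exact Submodule.sum_mem _ fun j _ =>
      Submodule.smul_mem _ _ (Submodule.subset_span (mem_range_self j))
  have hc : Countable {p : β → Ix n → Ix n → ℝ | 0 < volume {y | Ξ y = p}} :=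
    (Measure.countable_meas_level_set_pos mξ').to_subtype
  have hZ : ∀ p : β → Ix n → Ix n → ℝ, MeasurableSet {y | Ξ y = p} := fun p =>
    mξ' (measurableSet_singleton p)
  refine famL_of hK h2 (I := {p : β → Ix n → Ix n → ℝ | 0 < volume {y | Ξ y = p}})
    (fun p => {y | Ξ y = p.1}) (fun p => ⨅ k, Submodule.span ℝ (range (p.1 k)))
    (fun p => hZ p.1) ?_ ?_
  · have h3 : ∀ (p : {p : β → Ix n → Ix n → ℝ | 0 < volume {y | Ξ y = p}}) (k : β) (j : Ix n),
        ∀ᵐ y, y ∉ {y | lz (p.1 k j) (V k y) ≠ 0} ∩ Nb {y | Ξ y = p.1} := fun p k j => by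
      refine measure_eq_zero_iff_ae_notMem.1 (hK.nb_swap _ _ (hZ p.1) ?_ ?_)
      · refine (measurableSet_eq_fun ?_ measurable_const).compl
        unfold lz dotProduct
        exact Finset.measurable_sum _ fun a _ => (mc k a).const_mul _
      · rw [eq_empty_of_forall_notMem (s := _ ∩ _) ?_, measure_empty]
        rintro x ⟨hx, hx'⟩
        refine hx' (measure_eq_zero_iff_ae_notMem.2 ((orth k x j).mono fun ω h hn => hn ?_))
        rw [← hx, eΞ]
        exact h ()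
    filter_upwards [ae_all_iff.2 fun p => ae_all_iff.2 fun k => ae_all_iff.2 (h3 p k), hl]
      with y hy ⟨q, hq⟩
    refine ⟨q, iSup₂_le fun p hp u hu => mem_perp.2 ?_⟩
    rw [lz_comm]
    refine span_left (fun k => ?_) hq
    rw [lz_comm]
    refine span_left (fun j => ?_) ((Submodule.mem_iInf _).1 hu k)
    by_contra hn
    exact hy p k j ⟨hn, hp⟩
  · have h3 : ∀ᵐ x : E d, 0 < volume {y | Ξ y = Ξ x} ∧
        ∀ m, V m x ∈ ⨅ k, Submodule.span ℝ (range (Ξ x k)) := by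
      filter_upwards [hlev, ho] with x hx hu
      exact ⟨hx, fun m => hspan x _ fun k => hu.mono fun ω h => h m k⟩
    filter_upwards [hlev, sSig.right d _ h3] with z hz hn
    refine ⟨⟨Ξ z, hz⟩, rfl, fun u hu => hspan z u fun k => ?_⟩
    have h4 : ∀ᵐ m ∂sig d, ∀ p : {p : β → Ix n → Ix n → ℝ | 0 < volume {y | Ξ y = p}},
        Ξ (z + m) = p.1 → z ∈ Nb {y | Ξ y = p.1} := by
      refine ae_all_iff.2 fun p => ?_
      by_cases hp : z ∈ Nb {y | Ξ y = p.1}
      · exact Eventually.of_forall fun _ _ => hp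
      · exact (measure_eq_zero_iff_ae_notMem.1 (not_not.1 hp)).mono fun m h h' => absurd h' h
    filter_upwards [hn, h4] with m h5 h6
    rw [lz_comm]
    have h7 := h6 ⟨Ξ (z + m), h5.1⟩ rfl
    have h8 := le_Sg (I := {p : β → Ix n → Ix n → ℝ | 0 < volume {y | Ξ y = p}})
      (Z := fun p => {y | Ξ y = p.1}) (W := fun p => ⨅ k, Submodule.span ℝ (range (p.1 k)))
      (i := ⟨Ξ (z + m), h5.1⟩) h7
    exact mem_perp.1 (hu (h8 (h5.2 k)))

/-- finitely many flat fields whose span contains a lift give a family of lifts. -/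
theorem famL (hd : 3 ≤ d) {β : Type} [Fintype β]
    (V : β → E d → Ix n → ℝ) (hm : ∀ k, Measurable (V k))
    (hf : ∀ k, ∀ᵐ x : E d, ∀ K : ℕ, ∃ C : ℝ,
      Small fun τ => {η | C * τ ^ K < ‖V k (x + η) - V k x‖})
    (ho : AePair fun x y => ∀ j k, lz (V j x) (V k y) = 0)
    (hl : ∀ᵐ y, ∃ p : E n, lift p ∈ Submodule.span ℝ (range fun j => V j y)) :
    ∃ O : (Ix n → ℝ) → Set (E d), FamL O := by
  have hK := sKit hd
  have hC := sCap hd
  exact famL_gen hK (sCnt (sCntF hd) (sCntD hd (sJac hd) hC (sQuad hd (sArc hd)) (sChord hd)))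
    (sOpen hd hK (sK hd (sJacL77 (by omega)) hC hK)) V hm hf ho hl

end Pool.Agent.MP_66cee2_co.G
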