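import Pool.Agent.MP_66cee2_co.D.Defs
import Pool.Agent.MP_66cee2_co.XJ.All

/-
The closure of the field together with a line field in its row span and rational jets of all rows.
-/

namespace Pool.Agent.MP_66cee2_co.G

open MeasureTheory Set Filter Metric Topology Pool.Agent.MP_66cee2_co.X

theorem sUP (hS : SSig) (hA : SApp) (hJ : SJet) {d n : ℕ} {P : E d → Matrix (Ix n) (Ix n) ℝ}
    {JA JB : E d → Finset (Ix n)} {A B : E d → Ix n → Ix n → ℝ} (hd : 1 ≤ d) (hP : Field P)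
    (hG : Gal P JA JB A B) (hR : ∀ j, ∀ᵐ y : E d, RatJet fun η : E d => A (y + η) j) :
    ∃ u, (∀ᵐ x, u x ∈ Submodule.span ℝ (range (A x))) ∧ JetField P u := by
  classical
  have mA : ∀ j a, Measurable fun x => A x j a := fun j => (hG.dA j).mξ
  have mD : ∀ k, Measurable fun x => uF (A x) k ⬝ᵥ uF (A x) k := fun k =>
    Finset.measurable_sum _ fun a _ => (u_measF mA k a).mul (u_measF mA k a)
  obtain ⟨e, he⟩ := exists_surjective_nat (Option (Ix n × Option (Ix n)) × ℕ)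
  have hex : ∀ x, ∃ m, uOk (JA x) (A x) (e m).1 ∧
      1 / ((e m).2 + 1 : ℝ) ≤ uF (A x) (e m).1 ⬝ᵥ uF (A x) (e m).1 := fun x => by
    obtain ⟨k, h1, h2⟩ := u_exists (JA x) (A x) (hG.nrm x)
    obtain ⟨i, hi⟩ := exists_nat_one_div_lt (lt_of_le_of_ne
      (Finset.sum_nonneg fun a _ => mul_self_nonneg (uF (A x) k a))
      fun h => h2 (dotProduct_self_eq_zero.1 h.symm))
    obtain ⟨m, hm⟩ := he (k, i)
    exact ⟨m, by rw [hm]; exact ⟨h1, hi.le⟩⟩
  have mp : ∀ m, MeasurableSet {x | uOk (JA x) (A x) (e m).1 ∧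
      1 / ((e m).2 + 1 : ℝ) ≤ uF (A x) (e m).1 ⬝ᵥ uF (A x) (e m).1} := fun m =>
    (u_measOk (hG.dA sI).mJ mA _).inter (measurableSet_le measurable_const (mD _))
  obtain ⟨N, hN⟩ : ∃ N : E d → ℕ, N = fun x => Nat.find (hex x) := ⟨_, rfl⟩
  have mN : Measurable N := hN ▸ measurable_find hex mp
  have sN : ∀ x, uOk (JA x) (A x) (e (N x)).1 ∧ 1 / ((e (N x)).2 + 1 : ℝ) ≤
      uF (A x) (e (N x)).1 ⬝ᵥ uF (A x) (e (N x)).1 := fun x => hN ▸ Nat.find_spec (hex x)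
  obtain ⟨w, hw⟩ : ∃ w : E d → Ix n → ℝ, w = fun x => uF (A x) (e (N x)).1 := ⟨_, rfl⟩
  have mw : ∀ a, Measurable fun x => w x a := fun a => by
    rw [hw, hN]
    exact Measurable.find (f := fun m x => uF (A x) (e m).1 a) (fun m => u_measF mA _ a) mp hex
  have hww : ∀ x, 1 / ((e (N x)).2 + 1 : ℝ) ≤ w x ⬝ᵥ w x := fun x => hw ▸ (sN x).2
  have pw : ∀ x, 0 < w x ⬝ᵥ w x := fun x => lt_of_lt_of_le (by positivity) (hww x)
  have pr : ∀ x, 0 < (√(w x ⬝ᵥ w x))⁻¹ := fun x => inv_pos.2 (Real.sqrt_pos.2 (pw x))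
  have unit : ∀ x, ((√(w x ⬝ᵥ w x))⁻¹ • w x) ⬝ᵥ ((√(w x ⬝ᵥ w x))⁻¹ • w x) = 1 := fun x => by
    rw [smul_dotProduct, dotProduct_smul, smul_eq_mul, smul_eq_mul, ← mul_assoc, ← mul_inv,
      Real.mul_self_sqrt (pw x).le, inv_mul_cancel₀ (pw x).ne']
  have good : ∀ᵐ x, JA x ≠ ∅ ∧ 0 < P x sI sI ∧ (∀ a, P x a ∈ Submodule.span ℝ (range (A x))) ∧
      (√(w x ⬝ᵥ w x))⁻¹ • w x ∈ Submodule.span ℝ (range (A x)) := by
    filter_upwards [hP.pos, hG.span] with x h1 h2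
    have h3 : JA x ≠ ∅ := fun h => by
      have := congrFun (h2 sI) sI
      rw [h, Finset.sum_empty] at this
      exact h1.2.1.ne' this
    refine ⟨h3, h1.2.1, fun a => ?_, Submodule.smul_mem _ _ (hw ▸ u_mem h3 _ (sN x).1)⟩
    rw [h2 a]
    exact sum_mem fun j _ => Submodule.smul_mem _ _ (Submodule.subset_span ⟨j, rfl⟩)
  have pin : AePair fun x y => ∀ a, lz (P x a) ((√(w y ⬝ᵥ w y))⁻¹ • w y) = 0 ∧
      lz ((√(w x ⬝ᵥ w x))⁻¹ • w x) (P y a) = 0 := by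
    filter_upwards [good, hS.right d _ good, hG.orth] with x h1 h2 h3
    filter_upwards [h2, h3] with ω h4 h5 a
    exact ⟨u_span h5 (h1.2.2.1 a) h4.2.2.2, u_span h5 h1.2.2.2 (h4.2.2.1 a)⟩
  refine ⟨fun x => (√(w x ⬝ᵥ w x))⁻¹ • w x, good.mono fun x h => h.2.2.2,
    measurable_pi_lambda _ fun a => ?_, unit, ?_, pin, ?_, ?_⟩
  · exact (Finset.measurable_sum _ fun b _ => (mw b).mul (mw b)).sqrt.inv.mul (mw a)
  · filter_upwards [good, hS.right d _ good, hG.orth] with x h1 h2 h3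
    filter_upwards [h2, h3] with ω h4 h5
    exact u_span h5 h1.2.2.2 h4.2.2.2
  · filter_upwards [good, hS.right d _ good, pin, hP.pos, hG.span] with x h1 h2 h3 h4 h5
    have h6 : w x sI = 0 ∨ (w x sI ≠ 0 ∧ lz (w x) (w x) = w x sI ^ 2) :=
      hw ▸ u_type h4 h5 h1.1 _ (sN x).1
    rcases h6 with h6 | ⟨h6, h7⟩
    · have h7 : ((√(w x ⬝ᵥ w x))⁻¹ • w x) sI = 0 := by rw [Pi.smul_apply, h6, smul_zero]
      refine Or.inl ⟨h7, ?_⟩
      by_contra h8
      push Not at h8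
      have := ae_neBot.2 (hS.ne d hd)
      obtain ⟨ω, h9, h10⟩ := (h2.and h3).exists
      have h11 := (h10 sI).2
      have h12 := unit x
      generalize (√(w x ⬝ᵥ w x))⁻¹ • w x = v at h7 h8 h11 h12
      rw [lz_eq] at h11
      simp only [h7, h8, zero_mul, Finset.sum_const_zero, mul_zero, zero_add] at h11
      simp [dotProduct, h7, h8, (mul_eq_zero.1 h11).resolve_right h9.2.1.ne'] at h12
    · refine Or.inr ⟨mul_ne_zero (pr x).ne' h6, ?_⟩
      rw [u_smul_left, lz_comm, u_smul_left, h7, Pi.smul_apply, smul_eq_mul]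
      ring
  · filter_upwards [ae_all_iff.2 fun m => hA.dens d _ (mN (measurableSet_singleton m)),
      ae_all_iff.2 hR, ae_all_iff.2 fun a => hA.apc d _ (mw a)] with x h1 h2 h3
    have h4 := small_iff.1 (h1 (N x) rfl)
    obtain ⟨φ, q, p, hq, H⟩ := u_rat hJ (A := fun η => A (x + η)) h2 (e (N x)).1
    refine u_jet hJ (g := fun η => w (x + η)) (r := fun η => (√(w (x + η) ⬝ᵥ w (x + η)))⁻¹)
      (c := (√(1 / ((e (N x)).2 + 1 : ℝ)))⁻¹) (v := w x) ⟨φ, q, p, hq, fun a =>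
        ⟨hJ.congr d _ _ _ (small_iff.2 (h4.mono' fun _ η hη h => hη ?_)) (H a).1, (H a).2⟩⟩
      (fun h => (pw x).ne' (by rw [h, zero_dotProduct])) h3
      (small_iff.2 (h4.mono' fun _ η hη h => not_le.2 (Set.mem_ofPred_eq ▸ hη :) ?_))
    · rw [hw]
      exact congrArg (fun m => uF (A (x + η)) (e m).1 a) (h : N (x + η) = N x).symm
    · rw [abs_of_pos (pr _), ← (h : N (x + η) = N x)]
      exact inv_anti₀ (by positivity) (Real.sqrt_le_sqrt (hww _))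

theorem jetGal_of (hG : SGal) (hJ : SJet) (hB : SBase) (hS : SStep) (hR : SRatA) {d n : ℕ}
    (hd : 3 ≤ d) {P : E d → Matrix (Ix n) (Ix n) ℝ} (hP : Field P) :
    ∃ (JA JB : E d → Finset (Ix n)) (A B : E d → Ix n → Ix n → ℝ) (u : E d → Ix n → ℝ),
      Gal P JA JB A B ∧ JetField P u ∧ (∀ᵐ x, u x ∈ Submodule.span ℝ (range (A x))) ∧
      (∀ j, ∀ᵐ y : E d, RatJet fun η : E d => A (y + η) j) ∧
      ∀ k, ∀ᵐ y : E d, RatJet fun η : E d => B (y + η) k := by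
  obtain ⟨JA, JB, A, B, hG⟩ := hG d n P hP
  have h := main_tay hJ hB hS (by omega) hG
  have rA : ∀ j, ∀ᵐ y : E d, RatJet fun η : E d => A (y + η) j := fun j => by
    refine hR d (Ix n) (Ix n) (fun x k => Jv (B x k)) JA (fun y => A y j) hd (hG.dA j) ?_ ?_
    · filter_upwards [ae_all_iff.2 fun m => (h m).1 j] with y hy a
      exact main_jet hJ fun m => hy m a
    · filter_upwards [ae_all_iff.2 fun m => main_jv hJ (h m).2] with x hx k a
      exact main_jet hJ fun m => hx m k a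
  have rB : ∀ j, ∀ᵐ y : E d, RatJet fun η : E d => B (y + η) j := fun j => by
    refine hR d (Ix n) (Ix n) (fun x k => Jv (A x k)) JB (fun y => B y j) hd (hG.dB j) ?_ ?_
    · filter_upwards [ae_all_iff.2 fun m => (h m).2 j] with y hy a
      exact main_jet hJ fun m => hy m a
    · filter_upwards [ae_all_iff.2 fun m => main_jv hJ (h m).1] with x hx k a
      exact main_jet hJ fun m => hx m k a
  obtain ⟨u, h1, h2⟩ := sUP sSig sApp hJ (by omega) hP hG rA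
  exact ⟨JA, JB, A, B, u, hG, h2, h1, rA, rB⟩

theorem jetGal {d n : ℕ} (hd : 3 ≤ d) {P : E d → Matrix (Ix n) (Ix n) ℝ} (hP : Field P) :
    ∃ (JA JB : E d → Finset (Ix n)) (A B : E d → Ix n → Ix n → ℝ) (u : E d → Ix n → ℝ),
      Gal P JA JB A B ∧ JetField P u ∧ (∀ᵐ x, u x ∈ Submodule.span ℝ (range (A x))) ∧
      (∀ j, ∀ᵐ y : E d, RatJet fun η : E d => A (y + η) j) ∧
      ∀ k, ∀ᵐ y : E d, RatJet fun η : E d => B (y + η) k :=
  jetGal_of (sGal sSig (sUp sSig) sRows) (sJet sPoly)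
    (sBase sApp sPoly (sTele sPoly) sCoreAll (sBaseA sSig sApp (sPair sSig)))
    (sStep sApp (sJet sPoly) (sTele sPoly) sCoreAll)
    (sRatA sSig sApp (sJet sPoly) (sPick sSig) (sRatLoc sPoly2)) hd hP

end Pool.Agent.MP_66cee2_co.G
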